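import Mathlib

/-!
Names for the isolated paths of a computable binary tree without dead ends, from a uniformly
computable sequence `S` that contains every limit path.
-/

set_option autoImplicit false

namespace Pool.Agent.Lib.MP_0f5a21_lc

/-- The node of level `n` on the sequence `f`. -/
def pre (f : ℕ → Bool) (n : ℕ) : List Bool := List.ofFn (fun i : Fin n => f i)

theorem pre_length (f : ℕ → Bool) (n : ℕ) : (pre f n).length = n := by simp [pre]

theorem pre_zero (f : ℕ → Bool) : pre f 0 = [] := by simp [pre]

theorem pre_succ (f : ℕ → Bool) (n : ℕ) : pre f (n + 1) = pre f n ++ [f n] := by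
  unfold pre
  rw [List.ofFn_succ', List.concat_eq_append]
  rfl

theorem pre_get (f : ℕ → Bool) {n i : ℕ} (h : i < n) : (pre f n)[i]? = some (f i) := by
  simp [pre, h]

theorem pre_eq_of {f g : ℕ → Bool} {n : ℕ} (h : ∀ i < n, f i = g i) : pre f n = pre g n := by
  induction n with
  | zero => simp [pre]
  | succ n ih =>
    rw [pre_succ, pre_succ, ih (fun i hi => h i (by omega)), h n (by omega)]

theorem agree_of_pre {f g : ℕ → Bool} {n : ℕ} (h : pre f n = pre g n) : ∀ i < n, f i = g i := by
  intro i hi
  have h1 := pre_get f hi
  have h2 := pre_get g hi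
  rw [h, h2] at h1
  simpa using h1.symm

/-- The sequence that extends `σ` by `false`. -/
def ext (σ : List Bool) (n : ℕ) : Bool := (σ[n]?).getD false

theorem pre_ext (σ : List Bool) : pre (ext σ) σ.length = σ := by
  apply List.ext_getElem?
  intro i
  by_cases hi : i < σ.length
  · rw [pre_get _ hi]
    simp [ext, hi]
  · rw [List.getElem?_eq_none (by rw [pre_length]; omega), List.getElem?_eq_none (by omega)]

theorem ext_pre (f : ℕ → Bool) {n i : ℕ} (h : i < n) : ext (pre f n) i = f i := by
  simp [ext, pre_get f h]

/-- The limit of a growing chain of lists. -/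
def lim (L : ℕ → List Bool) (n : ℕ) : Bool := ((L (n + 1))[n]?).getD false

theorem chain_length {L : ℕ → List Bool} {d : ℕ → Bool} (h : ∀ m, L (m + 1) = L m ++ [d m])
    (m : ℕ) : (L m).length = (L 0).length + m := by
  induction m with
  | zero => simp
  | succ m ih => rw [h]; simp [ih]; omega

theorem chain_get {L : ℕ → List Bool} {d : ℕ → Bool} (h : ∀ m, L (m + 1) = L m ++ [d m])
    {m m' i : ℕ} (hi : i < (L m).length) (hm : m ≤ m') : (L m')[i]? = (L m)[i]? := by
  induction m', hm using Nat.le_induction with
  | base => rfl
  | succ k hk ih =>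
    rw [h, List.getElem?_append_left, ih]
    rw [chain_length h] at hi ⊢
    omega

theorem pre_lim {L : ℕ → List Bool} {d : ℕ → Bool} (h : ∀ m, L (m + 1) = L m ++ [d m])
    (m : ℕ) : pre (lim L) ((L 0).length + m) = L m := by
  apply List.ext_getElem?
  intro i
  by_cases hi : i < (L 0).length + m
  · rw [pre_get _ hi]
    have h1 : i < (L m).length := by rw [chain_length h]; exact hi
    have h2 : i < (L (i + 1)).length := by rw [chain_length h]; omega
    have h3 : (L m)[i]? = (L (i + 1))[i]? := by
      rcases Nat.le_total m (i + 1) with h4 | h4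
      · exact (chain_get h h1 h4).symm
      · exact chain_get h h2 h4
    rw [h3, List.getElem?_eq_getElem h2]
    simp [lim, h2]
  · rw [List.getElem?_eq_none (by rw [pre_length]; omega),
      List.getElem?_eq_none (by rw [chain_length h]; omega)]

theorem lim_step {L : ℕ → List Bool} {d : ℕ → Bool} (h : ∀ m, L (m + 1) = L m ++ [d m])
    (m : ℕ) : lim L ((L 0).length + m) = d m := by
  have h1 := pre_lim h (m + 1)
  rw [← Nat.add_assoc, pre_succ, pre_lim h m, h] at h1
  simpa using h1

section tree

variable (t : List Bool → Bool)

/-- Both children of the node are in the tree. -/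
def both (ν : List Bool) : Bool := t (ν ++ [false]) && t (ν ++ [true])

/-- A tree without dead ends, given by its characteristic function. -/
structure IsTree : Prop where
  nil : t [] = true
  down : ∀ σ b, t (σ ++ [b]) = true → t σ = true
  up : ∀ σ, t σ = true → ∃ b, t (σ ++ [b]) = true

/-- `f` is a path. -/
def IsPath (f : ℕ → Bool) : Prop := ∀ n, t (pre f n) = true

/-- Direction taken at `ν`: the preferred direction `b` if there is a choice. -/
def dir (ν : List Bool) (b : Bool) : Bool := if both t ν then b else t (ν ++ [true])

variable {t}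

theorem dir_mem (ht : IsTree t) {ν : List Bool} (hν : t ν = true) (b : Bool) :
    t (ν ++ [dir t ν b]) = true := by
  unfold dir
  by_cases h : both t ν = true
  · rw [if_pos h]
    simp only [both, Bool.and_eq_true] at h
    cases b
    · exact h.1
    · exact h.2
  · rw [if_neg h]
    obtain ⟨c, hc⟩ := ht.up ν hν
    cases hb : t (ν ++ [true])
    · cases c
      · exact hc
      · rw [hc] at hb; cases hb
    · exact hb

theorem dir_unique {ν : List Bool} (h : both t ν = false) {b c : Bool}
    (hb : t (ν ++ [b]) = true) : b = dir t ν c := by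
  unfold dir
  rw [h]
  simp only [Bool.false_eq_true, if_false]
  simp only [both, Bool.and_eq_false_iff] at h
  cases b
  · rcases h with h | h
    · rw [h] at hb; cases hb
    · exact h.symm
  · exact hb.symm

/-- The walk from `ν` which always prefers `b`. -/
def walkC (t : List Bool → Bool) (b : Bool) (ν : List Bool) : ℕ → List Bool
  | 0 => ν
  | m + 1 => walkC t b ν m ++ [dir t (walkC t b ν m) b]

/-- The path through `ν` which from there on always prefers `b`. -/
def pathC (t : List Bool → Bool) (b : Bool) (ν : List Bool) : ℕ → Bool := lim (walkC t b ν)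

theorem pathC_pre (b : Bool) (ν : List Bool) (m : ℕ) :
    pre (pathC t b ν) (ν.length + m) = walkC t b ν m :=
  pre_lim (L := walkC t b ν) (d := fun m => dir t (walkC t b ν m) b) (fun _ => rfl) m

theorem pathC_pre0 (b : Bool) (ν : List Bool) : pre (pathC t b ν) ν.length = ν :=
  pathC_pre b ν 0

theorem pathC_step (b : Bool) (ν : List Bool) {n : ℕ} (hn : ν.length ≤ n) :
    pathC t b ν n = dir t (pre (pathC t b ν) n) b := by
  obtain ⟨m, rfl⟩ := Nat.exists_eq_add_of_le hn
  rw [pathC_pre]
  exact lim_step (L := walkC t b ν) (d := fun m => dir t (walkC t b ν m) b) (fun _ => rfl) m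

theorem walkC_mem (ht : IsTree t) {b : Bool} {ν : List Bool} (hν : t ν = true) (m : ℕ) :
    t (walkC t b ν m) = true := by
  induction m with
  | zero => exact hν
  | succ m ih => exact dir_mem ht ih b

theorem isPath_of_tail (ht : IsTree t) {f : ℕ → Bool} {a : ℕ}
    (h : ∀ n, a ≤ n → t (pre f n) = true) : IsPath t f := by
  have key : ∀ j, ∀ n, a ≤ n + j → t (pre f n) = true := by
    intro j
    induction j with
    | zero => intro n hn; exact h n (by omega)
    | succ j ih =>
      intro n hn
      have h1 := ih (n + 1) (by omega)
      rw [pre_succ] at h1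
      exact ht.down _ _ h1
  intro n
  exact key a n (by omega)

theorem pathC_isPath (ht : IsTree t) {b : Bool} {ν : List Bool} (hν : t ν = true) :
    IsPath t (pathC t b ν) := by
  apply isPath_of_tail ht (a := ν.length)
  intro n hn
  obtain ⟨m, rfl⟩ := Nat.exists_eq_add_of_le hn
  rw [pathC_pre]
  exact walkC_mem ht hν m

/-- A path through any node. -/
theorem exists_path (ht : IsTree t) {ν : List Bool} (hν : t ν = true) :
    ∃ g, IsPath t g ∧ pre g ν.length = ν :=
  ⟨pathC t false ν, pathC_isPath ht hν, pathC_pre0 false ν⟩

/-- A path which leaves `f` exactly at a branching level `n`. -/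
theorem exists_branch (ht : IsTree t) {f : ℕ → Bool} {n : ℕ}
    (hb : both t (pre f n) = true) (c : Bool) :
    ∃ g, IsPath t g ∧ (∀ i < n, g i = f i) ∧ g n = c := by
  have hν : t (pre f n ++ [c]) = true := by
    simp only [both, Bool.and_eq_true] at hb
    cases c
    · exact hb.1
    · exact hb.2
  obtain ⟨g, hg, hp⟩ := exists_path ht hν
  have hl : (pre f n ++ [c]).length = n + 1 := by simp [pre_length]
  rw [hl, pre_succ] at hp
  have h1 : pre g n = pre f n := by
    have := congrArg List.dropLast hp
    simpa using this
  have h2 : g n = c := by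
    have := congrArg List.getLast? hp
    simpa using this
  exact ⟨g, hg, agree_of_pre h1, h2⟩

/-- No branching from level `a` on. -/
def Quiet (t : List Bool → Bool) (f : ℕ → Bool) (a : ℕ) : Prop :=
  ∀ n, a ≤ n → both t (pre f n) = false

theorem eq_of_quiet {f g : ℕ → Bool} {a : ℕ} (hf : IsPath t f) (hg : IsPath t g)
    (hq : Quiet t f a) (h : ∀ i < a, g i = f i) : g = f := by
  have key : ∀ j, ∀ i < a + j, g i = f i := by
    intro j
    induction j with
    | zero => simpa using h
    | succ j ih =>
      intro i hi
      by_cases hi' : i < a + j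
      · exact ih i hi'
      · have hij : i = a + j := by omega
        subst hij
        have hp : pre g (a + j) = pre f (a + j) := pre_eq_of ih
        have h1 := hf (a + j + 1)
        have h2 := hg (a + j + 1)
        rw [pre_succ] at h1 h2
        rw [hp] at h2
        have hq' := hq (a + j) (by omega)
        rw [dir_unique hq' (c := false) h1, dir_unique hq' (c := false) h2]
  funext i
  exact key (i + 1) i (by omega)

theorem quiet_of_isolated (ht : IsTree t) {f : ℕ → Bool} {m : ℕ}
    (h : ∀ g, IsPath t g → (∀ i < m, g i = f i) → g = f) : Quiet t f m := by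
  intro n hn
  by_contra hb
  have hb' : both t (pre f n) = true := by
    cases h' : both t (pre f n)
    · exact absurd h' hb
    · rfl
  obtain ⟨g, hg, hag, hgn⟩ := exists_branch ht hb' (!(f n))
  have := h g hg (fun i hi => hag i (by omega))
  rw [this] at hgn
  cases hfn : f n <;> rw [hfn] at hgn <;> cases hgn

section names

variable (S : ℕ → ℕ → Bool)

/-- The pair (node, counter) at level `n` of `f`. -/
def st (t : List Bool → Bool) (S : ℕ → ℕ → Bool) (f : ℕ → Bool) : ℕ → List Bool × ℕ
  | 0 => ([], 0)
  | n + 1 => ((st t S f n).1 ++ [f n],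
      if both t (st t S f n).1 then
        (if f n = S (st t S f n).2 n then 0 else (st t S f n).2 + 1)
      else (st t S f n).2)

theorem st_fst (f : ℕ → Bool) (n : ℕ) : (st t S f n).1 = pre f n := by
  induction n with
  | zero => simp [st, pre]
  | succ n ih => rw [pre_succ, ← ih]; rfl

/-- The counter at level `n` of `f`. -/
def ctr (t : List Bool → Bool) (S : ℕ → ℕ → Bool) (f : ℕ → Bool) (n : ℕ) : ℕ := (st t S f n).2

theorem ctr_succ (f : ℕ → Bool) (n : ℕ) : ctr t S f (n + 1) =
    if both t (pre f n) then (if f n = S (ctr t S f n) n then 0 else ctr t S f n + 1)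
    else ctr t S f n := by
  unfold ctr
  rw [← st_fst (t := t) S f n]
  rfl

theorem ctr_congr {f g : ℕ → Bool} {n : ℕ} (h : ∀ i < n, f i = g i) :
    ctr t S f n = ctr t S g n := by
  induction n with
  | zero => rfl
  | succ n ih =>
    rw [ctr_succ, ctr_succ, ih (fun i hi => h i (by omega)), h n (by omega),
      pre_eq_of (fun i hi => h i (by omega : i < n + 1))]

/-- Level `n` of `f` carries a name. -/
def nameAt (t : List Bool → Bool) (S : ℕ → ℕ → Bool) (f : ℕ → Bool) : ℕ → Bool
  | 0 => true
  | n + 1 => both t (pre f n) && (f n == S (ctr t S f n) n)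

theorem nameAt_succ (f : ℕ → Bool) (n : ℕ) : nameAt t S f (n + 1) =
    (both t (pre f n) && (f n == S (ctr t S f n) n)) := rfl

theorem nameAt_congr {f g : ℕ → Bool} {n : ℕ} (h : ∀ i < n, f i = g i) :
    nameAt t S f n = nameAt t S g n := by
  cases n with
  | zero => rfl
  | succ n =>
    rw [nameAt_succ, nameAt_succ, ctr_congr S (fun i hi => h i (by omega : i < n + 1)), h n (by omega),
      pre_eq_of (fun i hi => h i (by omega : i < n + 1))]

theorem ctr_of_nameAt {f : ℕ → Bool} {n : ℕ} (h : nameAt t S f n = true) :
    ctr t S f n = 0 := by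
  cases n with
  | zero => rfl
  | succ n =>
    simp only [nameAt, Bool.and_eq_true, beq_iff_eq] at h
    rw [ctr_succ, if_pos h.1, if_pos h.2]

/-- `σ` is a name. -/
def isName (t : List Bool → Bool) (S : ℕ → ℕ → Bool) (σ : List Bool) : Bool :=
  t σ && nameAt t S (ext σ) σ.length

/-- The walk with counter from the node `σ`. -/
def run (t : List Bool → Bool) (S : ℕ → ℕ → Bool) (σ : List Bool) : ℕ → List Bool × ℕ
  | 0 => (σ, 0)
  | m + 1 => ((run t S σ m).1 ++ [dir t (run t S σ m).1
        (!(S (run t S σ m).2 (run t S σ m).1.length))],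
      if both t (run t S σ m).1 then (run t S σ m).2 + 1 else (run t S σ m).2)

/-- The path named by `σ`. -/
def pathN (t : List Bool → Bool) (S : ℕ → ℕ → Bool) (σ : List Bool) : ℕ → Bool :=
  lim (fun m => (run t S σ m).1)

theorem pathN_pre (σ : List Bool) (m : ℕ) :
    pre (pathN t S σ) (σ.length + m) = (run t S σ m).1 :=
  pre_lim (L := fun m => (run t S σ m).1)
    (d := fun m => dir t (run t S σ m).1 (!(S (run t S σ m).2 (run t S σ m).1.length)))
    (fun _ => rfl) m

theorem pathN_pre0 (σ : List Bool) : pre (pathN t S σ) σ.length = σ := pathN_pre S σ 0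

theorem pathN_step' (σ : List Bool) (m : ℕ) : pathN t S σ (σ.length + m) =
    dir t (run t S σ m).1 (!(S (run t S σ m).2 (σ.length + m))) := by
  have h := lim_step (L := fun m => (run t S σ m).1)
    (d := fun m => dir t (run t S σ m).1 (!(S (run t S σ m).2 (run t S σ m).1.length)))
    (fun _ => rfl) m
  have hl : (run t S σ m).1.length = σ.length + m := by
    rw [← pathN_pre, pre_length]
  rw [hl] at h
  exact h

theorem pathN_isPath (ht : IsTree t) {σ : List Bool} (hσ : t σ = true) :
    IsPath t (pathN t S σ) := by
  apply isPath_of_tail ht (a := σ.length)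
  intro n hn
  obtain ⟨m, rfl⟩ := Nat.exists_eq_add_of_le hn
  rw [pathN_pre]
  clear hn
  induction m with
  | zero => exact hσ
  | succ m ih => exact dir_mem ht ih _

theorem nameAt_of_isName {σ : List Bool} (h : isName t S σ = true) :
    nameAt t S (pathN t S σ) σ.length = true := by
  simp only [isName, Bool.and_eq_true] at h
  rw [← h.2]
  apply nameAt_congr
  intro i hi
  have h1 := pathN_pre0 (t := t) S σ
  conv at h1 => rhs; rw [← pre_ext σ]
  exact agree_of_pre h1 i hi

theorem run_snd {σ : List Bool} (h : isName t S σ = true) (m : ℕ) :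
    (run t S σ m).2 = ctr t S (pathN t S σ) (σ.length + m) := by
  induction m with
  | zero => exact (ctr_of_nameAt S (nameAt_of_isName S h)).symm
  | succ m ih =>
    rw [← Nat.add_assoc, ctr_succ, pathN_pre, pathN_step' (t := t) S σ m, ← ih]
    show (if both t (run t S σ m).1 then (run t S σ m).2 + 1 else (run t S σ m).2) = _
    by_cases hb : both t (run t S σ m).1 = true
    · rw [if_pos hb, if_pos hb]
      unfold dir
      rw [if_pos hb, if_neg]
      intro hc
      cases h' : S (run t S σ m).2 (σ.length + m) <;> rw [h'] at hc <;> cases hc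
    · rw [if_neg hb, if_neg hb]

theorem pathN_step {σ : List Bool} (h : isName t S σ = true) {n : ℕ} (hn : σ.length ≤ n) :
    pathN t S σ n =
      dir t (pre (pathN t S σ) n) (!(S (ctr t S (pathN t S σ) n) n)) := by
  obtain ⟨m, rfl⟩ := Nat.exists_eq_add_of_le hn
  rw [pathN_pre, ← run_snd S h]
  exact pathN_step' S σ m

theorem pathN_not_nameAt {σ : List Bool} (h : isName t S σ = true) {n : ℕ}
    (hn : σ.length < n) : nameAt t S (pathN t S σ) n = false := by
  obtain ⟨k, rfl⟩ : ∃ k, n = k + 1 := ⟨n - 1, by omega⟩
  rw [nameAt_succ]
  by_cases hb : both t (pre (pathN t S σ) k) = true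
  · have h1 := pathN_step S h (n := k) (by omega)
    unfold dir at h1
    rw [if_pos hb] at h1
    rw [hb, Bool.true_and]
    cases h2 : S (ctr t S (pathN t S σ) k) k <;> rw [h2] at h1 <;> rw [h1] <;> rfl
  · cases hb' : both t (pre (pathN t S σ) k)
    · rfl
    · exact absurd hb' hb

/-- Two names whose paths agree up to the longer of the two levels are equal. -/
theorem name_inj {σ τ : List Bool} (hσ : isName t S σ = true) (hτ : isName t S τ = true)
    (h : ∀ i < σ.length + τ.length, pathN t S σ i = pathN t S τ i) : σ = τ := by
  rcases Nat.lt_trichotomy σ.length τ.length with hl | hl | hl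
  · exfalso
    have h1 := pathN_not_nameAt S hσ hl
    rw [nameAt_congr S (fun i hi => h i (by omega : i < σ.length + τ.length)),
      nameAt_of_isName S hτ] at h1
    cases h1
  · rw [← pathN_pre0 (t := t) S σ, ← pathN_pre0 (t := t) S τ, ← hl]
    exact pre_eq_of (fun i hi => h i (by omega))
  · exfalso
    have h1 := pathN_not_nameAt S hτ hl
    rw [nameAt_congr S (fun i hi => (h i (by omega : i < σ.length + τ.length)).symm),
      nameAt_of_isName S hσ] at h1
    cases h1

/-- Every path without branching from some level on has a name. -/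
theorem exists_name {f : ℕ → Bool} {a : ℕ} (hf : IsPath t f) (hq : Quiet t f a) :
    ∃ σ, isName t S σ = true ∧ pathN t S σ = f := by
  obtain ⟨N, hN, hNa, hmax⟩ : ∃ N, nameAt t S f N = true ∧ N ≤ a ∧
      ∀ n, N < n → n ≤ a → nameAt t S f n = false := by
    have h0 : ∃ N, N ≤ a ∧ nameAt t S f N = true := ⟨0, by omega, rfl⟩
    classical
    refine ⟨Nat.findGreatest (fun n => nameAt t S f n = true) a, ?_, Nat.findGreatest_le a, ?_⟩
    · exact Nat.findGreatest_spec (P := fun n => nameAt t S f n = true) (m := 0) (by omega) rfl
    · intro n h1 h2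
      have := Nat.findGreatest_is_greatest h1 h2
      simpa using this
  refine ⟨pre f N, ?_, ?_⟩
  · unfold isName
    rw [hf N, pre_length, Bool.true_and, ← hN]
    apply nameAt_congr
    intro i hi
    exact ext_pre f hi
  · have hname : isName t S (pre f N) = true := by
      unfold isName
      rw [hf N, pre_length, Bool.true_and, ← hN]
      apply nameAt_congr
      intro i hi
      exact ext_pre f hi
    have hagN : ∀ i < N, pathN t S (pre f N) i = f i := by
      apply agree_of_pre
      have := pathN_pre0 (t := t) S (pre f N)
      rw [pre_length] at this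
      exact this
    have key : ∀ j, ∀ i < N + j, pathN t S (pre f N) i = f i := by
      intro j
      induction j with
      | zero => simpa using hagN
      | succ j ih =>
        intro i hi
        by_cases hi' : i < N + j
        · exact ih i hi'
        · have hij : i = N + j := by omega
          subst hij
          rw [pathN_step S hname (n := N + j) (by rw [pre_length]; omega),
            pre_eq_of ih, ctr_congr S ih]
          have h1 := hf (N + j + 1)
          rw [pre_succ] at h1
          by_cases hb : both t (pre f (N + j)) = true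
          · have ha : N + j < a := by
              by_contra hc
              have := hq (N + j) (by omega)
              rw [this] at hb
              cases hb
            have h2 := hmax (N + j + 1) (by omega) (by omega)
            rw [nameAt_succ, hb, Bool.true_and] at h2
            unfold dir
            rw [if_pos hb]
            cases h3 : S (ctr t S f (N + j)) (N + j) <;> cases h4 : f (N + j) <;>
              rw [h3, h4] at h2 <;> first | rfl | (cases h2)
          · have hb' : both t (pre f (N + j)) = false := by
              cases h5 : both t (pre f (N + j))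
              · rfl
              · exact absurd h5 hb
            exact (dir_unique hb' h1).symm
    funext i
    exact key (i + 1) i (by omega)

/-- If every limit path is listed by `S`, then the paths with names are quiet. -/
theorem pathN_quiet (ht : IsTree t)
    (hS : ∀ f, IsPath t f → (∀ a, ∃ n, a ≤ n ∧ both t (pre f n) = true) → ∃ k, S k = f)
    {σ : List Bool} (h : isName t S σ = true) : ∃ a, Quiet t (pathN t S σ) a := by
  by_contra hno
  have hσ : t σ = true := by
    simp only [isName, Bool.and_eq_true] at h
    exact h.1
  have hinf : ∀ a, ∃ n, a ≤ n ∧ both t (pre (pathN t S σ) n) = true := by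
    intro a
    by_contra hc
    apply hno
    refine ⟨a, fun n hn => ?_⟩
    cases hb : both t (pre (pathN t S σ) n)
    · rfl
    · exact absurd ⟨n, hn, hb⟩ hc
  obtain ⟨k, hk⟩ := hS _ (pathN_isPath S ht hσ) hinf
  have hsucc : ∀ n, σ.length ≤ n → ctr t S (pathN t S σ) (n + 1) =
      if both t (pre (pathN t S σ) n) then ctr t S (pathN t S σ) n + 1
      else ctr t S (pathN t S σ) n := by
    intro n hn
    rw [ctr_succ]
    by_cases hb : both t (pre (pathN t S σ) n) = true
    · rw [if_pos hb, if_pos hb, if_neg]
      have h1 := pathN_step S h hn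
      unfold dir at h1
      rw [if_pos hb] at h1
      intro hc
      rw [hc] at h1
      cases h2 : S (ctr t S (pathN t S σ) n) n <;> rw [h2] at h1 <;> cases h1
    · rw [if_neg hb, if_neg hb]
  have hmono : ∀ n m, σ.length ≤ n → n ≤ m →
      ctr t S (pathN t S σ) n ≤ ctr t S (pathN t S σ) m := by
    intro n m hn hm
    induction m, hm using Nat.le_induction with
    | base => exact le_rfl
    | succ m hm ih =>
      rw [hsucc m (by omega)]
      split_ifs <;> omega
  have hunb : ∀ K, ∃ n, σ.length ≤ n ∧ K ≤ ctr t S (pathN t S σ) n := by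
    intro K
    induction K with
    | zero => exact ⟨σ.length, le_rfl, Nat.zero_le _⟩
    | succ K ih =>
      obtain ⟨n, hn, hK⟩ := ih
      obtain ⟨m, hm, hb⟩ := hinf n
      refine ⟨m + 1, by omega, ?_⟩
      rw [hsucc m (by omega), if_pos hb]
      have := hmono n m hn hm
      omega
  obtain ⟨n, hn, hbn, hcn⟩ : ∃ n, σ.length ≤ n ∧ both t (pre (pathN t S σ) n) = true ∧
      ctr t S (pathN t S σ) n = k := by
    obtain ⟨n0, hn0, hK0⟩ := hunb (k + 1)
    have hz : ctr t S (pathN t S σ) σ.length = 0 := ctr_of_nameAt S (nameAt_of_isName S h)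
    have hex : ∃ m, k + 1 ≤ ctr t S (pathN t S σ) (σ.length + m) := by
      refine ⟨n0 - σ.length, ?_⟩
      rw [Nat.add_sub_cancel' hn0]
      exact hK0
    classical
    have hsp := Nat.find_spec hex
    have hmin := fun {m} (hm : m < Nat.find hex) => Nat.find_min hex hm
    generalize hM : Nat.find hex = M at hsp hmin
    cases M with
    | zero => simp [hz] at hsp
    | succ M =>
      have h1 := hmin (m := M) (by omega)
      rw [← Nat.add_assoc, hsucc (σ.length + M) (by omega)] at hsp
      refine ⟨σ.length + M, by omega, ?_, ?_⟩
      · by_contra hb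
        rw [if_neg hb] at hsp
        exact h1 hsp
      · split_ifs at hsp <;> omega
  have h1 := pathN_step S h hn
  unfold dir at h1
  rw [if_pos hbn, hcn, hk] at h1
  cases h2 : pathN t S σ n <;> rw [h2] at h1 <;> cases h1

end names

end tree

end Pool.Agent.Lib.MP_0f5a21_lc
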