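import Pool.Agent.Lib.MP_0f5a21_lc.Basic

/-!
Computability of the names of the isolated paths, and the presentation of the order of the
isolated paths which they give.
-/

set_option autoImplicit false

namespace Pool.Agent.Lib.MP_0f5a21_lc

open Encodable

theorem comp_and {α : Type} [Primcodable α] {f g : α → Bool} (hf : Computable f)
    (hg : Computable g) : Computable fun a => f a && g a :=
  Primrec.and.to_comp.comp hf hg

theorem comp_not {α : Type} [Primcodable α] {f : α → Bool} (hf : Computable f) :
    Computable fun a => !(f a) :=
  Primrec.not.to_comp.comp hf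

theorem comp_beq {α β : Type} [Primcodable α] [Primcodable β] [DecidableEq β] {f g : α → β}
    (hf : Computable f) (hg : Computable g) : Computable fun a => decide (f a = g a) :=
  (Primrec.eq (α := β)).decide.to_comp.comp hf hg

variable {t : List Bool → Bool} {S : ℕ → ℕ → Bool}

theorem comp_both (ht : Computable t) : Computable (both t) :=
  comp_and (ht.comp (Computable.list_concat.comp Computable.id (Computable.const false)))
    (ht.comp (Computable.list_concat.comp Computable.id (Computable.const true)))

theorem comp_dir (ht : Computable t) : Computable₂ (dir t) := by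
  have h : Computable fun p : List Bool × Bool =>
      bif both t p.1 then p.2 else t (p.1 ++ [true]) :=
    Computable.cond ((comp_both ht).comp Computable.fst) Computable.snd
      (ht.comp (Computable.list_concat.comp Computable.fst (Computable.const true)))
  have h' : Computable fun p : List Bool × Bool => dir t p.1 p.2 := by
    refine h.of_eq fun p => ?_
    unfold dir
    rw [Bool.cond_eq_ite]
  exact h'.to₂

theorem comp_walkC (ht : Computable t) :
    Computable fun p : (Bool × List Bool) × ℕ => walkC t p.1.1 p.1.2 p.2 := by
  have h := Computable.nat_rec (α := (Bool × List Bool) × ℕ) (σ := List Bool)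
    (f := fun p => p.2) (g := fun p => p.1.2)
    (h := fun p q => q.2 ++ [dir t q.2 p.1.1])
    Computable.snd (Computable.snd.comp Computable.fst)
    (Computable.list_concat.comp (Computable.snd.comp Computable.snd)
      ((comp_dir ht).comp (Computable.snd.comp Computable.snd)
        (Computable.fst.comp (Computable.fst.comp Computable.fst)))).to₂
  refine h.of_eq fun p => ?_
  obtain ⟨⟨b, ν⟩, m⟩ := p
  show _ = walkC t b ν m
  induction m with
  | zero => rfl
  | succ m ih =>
    show _ ++ [dir t _ b] = walkC t b ν m ++ [dir t (walkC t b ν m) b]
    rw [← ih]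

theorem comp_lim {α : Type} [Primcodable α] {L : α → ℕ → List Bool}
    (hL : Computable₂ L) : Computable₂ fun a n => lim (L a) n := by
  have h : Computable fun p : α × ℕ => ((L p.1 (p.2 + 1))[p.2]?).getD false :=
    Computable.option_getD
      (Computable.list_getElem?.comp
        (hL.comp Computable.fst (Computable.succ.comp Computable.snd)) Computable.snd)
      (Computable.const false)
  exact h.to₂

theorem comp_pathC (ht : Computable t) :
    Computable₂ fun (p : Bool × List Bool) (n : ℕ) => pathC t p.1 p.2 n :=
  comp_lim (L := fun (p : Bool × List Bool) m => walkC t p.1 p.2 m) (comp_walkC ht).to₂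

/-- The sequence `P`, merged with all leftmost and rightmost paths. -/
def merge (t : List Bool → Bool) (P : ℕ → ℕ → Bool) (k n : ℕ) : Bool :=
  bif k.bodd then
    Option.casesOn (decode (α := Bool × List Bool) k.div2) false
      (fun q => pathC t q.1 q.2 n)
  else P k.div2 n

theorem merge_even (P : ℕ → ℕ → Bool) (i : ℕ) : merge t P (2 * i) = P i := by
  funext n
  unfold merge
  simp

theorem merge_odd (P : ℕ → ℕ → Bool) (b : Bool) (ν : List Bool) :
    merge t P (2 * encode (b, ν) + 1) = pathC t b ν := by
  funext n
  unfold merge
  simp

theorem comp_merge (ht : Computable t) {P : ℕ → ℕ → Bool} (hP : Computable₂ P) :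
    Computable₂ (merge t P) := by
  have h : Computable fun p : ℕ × ℕ =>
      bif p.1.bodd then
        (Option.casesOn (decode (α := Bool × List Bool) p.1.div2) false
          (fun q => pathC t q.1 q.2 p.2) : Bool)
      else P p.1.div2 p.2 := by
    refine Computable.cond (Computable.nat_bodd.comp Computable.fst) ?_
      (hP.comp (Computable.nat_div2.comp Computable.fst) Computable.snd)
    exact Computable.option_casesOn
      (o := fun p : ℕ × ℕ => decode (α := Bool × List Bool) p.1.div2)
      (f := fun _ => false)
      (g := fun (p : ℕ × ℕ) (q : Bool × List Bool) => pathC t q.1 q.2 p.2)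
      (Computable.decode.comp (Computable.nat_div2.comp Computable.fst))
      (Computable.const false)
      ((comp_pathC ht).comp Computable.snd (Computable.snd.comp Computable.fst)).to₂
  exact h.to₂

theorem comp_run (ht : Computable t) (hS : Computable₂ S) : Computable₂ (run t S) := by
  have h := Computable.nat_rec (α := List Bool × ℕ) (σ := List Bool × ℕ)
    (f := fun p => p.2) (g := fun p => (p.1, 0))
    (h := fun _ q => (q.2.1 ++ [dir t q.2.1 (!(S q.2.2 q.2.1.length))],
      bif both t q.2.1 then Nat.succ q.2.2 else q.2.2))
    Computable.snd (Computable.pair Computable.fst (Computable.const 0))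
    (by
      have h1 : Computable fun x : (List Bool × ℕ) × (ℕ × (List Bool × ℕ)) => x.2.2.1 :=
        Computable.fst.comp (Computable.snd.comp Computable.snd)
      have h2 : Computable fun x : (List Bool × ℕ) × (ℕ × (List Bool × ℕ)) => x.2.2.2 :=
        Computable.snd.comp (Computable.snd.comp Computable.snd)
      exact (Computable.pair
        (Computable.list_concat.comp h1 ((comp_dir ht).comp h1
          (comp_not (hS.comp h2 (Computable.list_length.comp h1)))))
        (Computable.cond ((comp_both ht).comp h1) (Computable.succ.comp h2) h2)).to₂)
  suffices h' : Computable fun p : List Bool × ℕ => run t S p.1 p.2 from h'.to₂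
  refine h.of_eq fun p => ?_
  obtain ⟨σ, m⟩ := p
  show _ = run t S σ m
  induction m with
  | zero => rfl
  | succ m ih =>
    show (_, _) = ((run t S σ m).1 ++ [dir t (run t S σ m).1
        (!(S (run t S σ m).2 (run t S σ m).1.length))],
      if both t (run t S σ m).1 then (run t S σ m).2 + 1 else (run t S σ m).2)
    rw [← ih, Bool.cond_eq_ite]

theorem comp_pathN (ht : Computable t) (hS : Computable₂ S) : Computable₂ (pathN t S) :=
  comp_lim (L := fun σ m => (run t S σ m).1)
    (Computable.fst.comp (comp_run ht hS)).to₂

theorem comp_ext : Computable₂ ext :=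
  (Computable.option_getD (Computable.list_getElem?.comp Computable.fst Computable.snd)
    (Computable.const false)).to₂

theorem comp_st (ht : Computable t) (hS : Computable₂ S) :
    Computable₂ fun (σ : List Bool) (n : ℕ) => st t S (ext σ) n := by
  have h := Computable.nat_rec (α := List Bool × ℕ) (σ := List Bool × ℕ)
    (f := fun p => p.2) (g := fun _ => ([], 0))
    (h := fun p q => (q.2.1 ++ [ext p.1 q.1],
      bif both t q.2.1 then
        (bif decide (ext p.1 q.1 = S q.2.2 q.1) then 0 else Nat.succ q.2.2)
      else q.2.2))
    Computable.snd (Computable.const ([], 0))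
    (by
      have h0 : Computable fun x : (List Bool × ℕ) × (ℕ × (List Bool × ℕ)) => x.2.1 :=
        Computable.fst.comp Computable.snd
      have h1 : Computable fun x : (List Bool × ℕ) × (ℕ × (List Bool × ℕ)) => x.2.2.1 :=
        Computable.fst.comp (Computable.snd.comp Computable.snd)
      have h2 : Computable fun x : (List Bool × ℕ) × (ℕ × (List Bool × ℕ)) => x.2.2.2 :=
        Computable.snd.comp (Computable.snd.comp Computable.snd)
      have h3 : Computable fun x : (List Bool × ℕ) × (ℕ × (List Bool × ℕ)) =>
          ext x.1.1 x.2.1 :=
        comp_ext.comp (Computable.fst.comp Computable.fst) h0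
      exact (Computable.pair
        (Computable.list_concat.comp h1 h3)
        (Computable.cond ((comp_both ht).comp h1)
          (Computable.cond (comp_beq h3 (hS.comp h2 h0)) (Computable.const 0)
            (Computable.succ.comp h2)) h2)).to₂)
  suffices h' : Computable fun p : List Bool × ℕ => st t S (ext p.1) p.2 from h'.to₂
  refine h.of_eq fun p => ?_
  obtain ⟨σ, m⟩ := p
  show _ = st t S (ext σ) m
  induction m with
  | zero => rfl
  | succ m ih =>
    show (_, _) = ((st t S (ext σ) m).1 ++ [ext σ m],
      if both t (st t S (ext σ) m).1 then
        (if ext σ m = S (st t S (ext σ) m).2 m then 0 else (st t S (ext σ) m).2 + 1)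
      else (st t S (ext σ) m).2)
    rw [← ih, Bool.cond_eq_ite, Bool.cond_eq_ite]
    simp only [decide_eq_true_eq]

theorem comp_isName (ht : Computable t) (hS : Computable₂ S) : Computable (isName t S) := by
  have h : Computable fun σ : List Bool =>
      t σ && (Nat.casesOn (motive := fun _ => Bool) σ.length true
        (fun n => both t (st t S (ext σ) n).1 &&
          decide (ext σ n = S (st t S (ext σ) n).2 n))) := by
    refine comp_and ht ?_
    refine Computable.nat_casesOn (f := fun σ : List Bool => σ.length)
      (g := fun _ => true)
      (h := fun (σ : List Bool) n => both t (st t S (ext σ) n).1 &&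
          decide (ext σ n = S (st t S (ext σ) n).2 n))
      Computable.list_length (Computable.const true) ?_
    have h1 : Computable fun p : List Bool × ℕ => st t S (ext p.1) p.2 :=
      (comp_st ht hS).comp Computable.fst Computable.snd
    exact (comp_and ((comp_both ht).comp (Computable.fst.comp h1))
      (comp_beq (comp_ext.comp Computable.fst Computable.snd)
        (hS.comp (Computable.snd.comp h1) Computable.snd))).to₂
  refine h.of_eq fun σ => ?_
  unfold isName
  congr 1
  cases hl : σ.length with
  | zero => rfl
  | succ n =>
    rw [nameAt_succ, ← st_fst (t := t) S (ext σ) n]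
    show (_ && decide (ext σ n = S (ctr t S (ext σ) n) n)) = _
    congr 1

/-- Comparison of two sequences up to level `n`. -/
def cmp (f g : ℕ → Bool) : ℕ → Option Bool
  | 0 => none
  | n + 1 => Option.casesOn (motive := fun _ => Option Bool) (cmp f g n)
      (bif decide (f n = g n) then none else some (g n)) (fun b => some b)

theorem cmp_none {f g : ℕ → Bool} {n : ℕ} : cmp f g n = none ↔ ∀ i < n, f i = g i := by
  induction n with
  | zero => simp [cmp]
  | succ n ih =>
    unfold cmp
    cases h : cmp f g n with
    | none =>
      rw [h] at ih
      have ih' := ih.1 rfl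
      by_cases hfg : f n = g n
      · simp only [hfg, decide_true, cond_true, true_iff]
        intro i hi
        by_cases hin : i = n
        · rw [hin, hfg]
        · exact ih' i (by omega)
      · simp only [hfg, decide_false, cond_false]
        constructor
        · intro hc; cases hc
        · intro hc; exact absurd (hc n (by omega)) hfg
    | some b =>
      rw [h] at ih
      simp only
      constructor
      · intro hc; cases hc
      · intro hc
        have := ih.2 (fun i hi => hc i (by omega))
        cases this

theorem cmp_true {f g : ℕ → Bool} {n : ℕ} : cmp f g n = some true ↔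
    ∃ k < n, (∀ i < k, f i = g i) ∧ f k = false ∧ g k = true := by
  induction n with
  | zero => simp [cmp]
  | succ n ih =>
    unfold cmp
    cases h : cmp f g n with
    | none =>
      have hag := cmp_none.1 h
      by_cases hfg : f n = g n
      · simp only [hfg, decide_true, cond_true]
        constructor
        · intro hc; cases hc
        · rintro ⟨k, hk, _, h2, h3⟩
          by_cases hkn : k = n
          · rw [hkn] at h2 h3; rw [h2, h3] at hfg; cases hfg
          · have := hag k (by omega)
            rw [h2, h3] at this; cases this
      · simp only [hfg, decide_false, cond_false, Option.some.injEq]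
        constructor
        · intro hg
          refine ⟨n, by omega, hag, ?_, hg⟩
          cases hf : f n
          · rfl
          · rw [hf, hg] at hfg; exact absurd rfl hfg
        · rintro ⟨k, hk, _, h2, h3⟩
          by_cases hkn : k = n
          · rw [hkn] at h3; exact h3
          · have := hag k (by omega)
            rw [h2, h3] at this; cases this
    | some b =>
      rw [h] at ih
      simp only
      rw [ih]
      constructor
      · rintro ⟨k, hk, h1⟩
        exact ⟨k, by omega, h1⟩
      · rintro ⟨k, hk, h1, h2, h3⟩
        by_cases hkn : k = n
        · exfalso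
          have : cmp f g n = none := cmp_none.2 (by rw [← hkn]; exact h1)
          rw [h] at this; cases this
        · exact ⟨k, by omega, h1, h2, h3⟩

theorem comp_cmp {α : Type} [Primcodable α] {f g : α → ℕ → Bool} (hf : Computable₂ f)
    (hg : Computable₂ g) : Computable₂ fun a n => cmp (f a) (g a) n := by
  have h := Computable.nat_rec (α := α × ℕ) (σ := Option Bool)
    (f := fun p => p.2) (g := fun _ => none)
    (h := fun p q => Option.casesOn (motive := fun _ => Option Bool) q.2
      (bif decide (f p.1 q.1 = g p.1 q.1) then none else some (g p.1 q.1)) (fun b => some b))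
    Computable.snd (Computable.const none)
    (by
      have h0 : Computable fun x : (α × ℕ) × (ℕ × Option Bool) => x.1.1 :=
        Computable.fst.comp Computable.fst
      have h1 : Computable fun x : (α × ℕ) × (ℕ × Option Bool) => x.2.1 :=
        Computable.fst.comp Computable.snd
      exact (Computable.option_casesOn
        (o := fun x : (α × ℕ) × (ℕ × Option Bool) => x.2.2)
        (f := fun x : (α × ℕ) × (ℕ × Option Bool) =>
          bif decide (f x.1.1 x.2.1 = g x.1.1 x.2.1) then none else some (g x.1.1 x.2.1))
        (g := fun _ b => some b)
        (Computable.snd.comp Computable.snd)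
        (Computable.cond (comp_beq (hf.comp h0 h1) (hg.comp h0 h1)) (Computable.const none)
          (Computable.option_some.comp (hg.comp h0 h1)))
        (Computable.option_some.comp Computable.snd).to₂).to₂)
  suffices h' : Computable fun p : α × ℕ => cmp (f p.1) (g p.1) p.2 from h'.to₂
  refine h.of_eq fun p => ?_
  obtain ⟨a, m⟩ := p
  show _ = cmp (f a) (g a) m
  induction m with
  | zero => rfl
  | succ m ih =>
    show Option.casesOn (motive := fun _ => Option Bool) _ _ _ = _
    rw [cmp, ← ih]

/-- Membership in the domain. -/
def domB (t : List Bool → Bool) (S : ℕ → ℕ → Bool) (n : ℕ) : Bool :=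
  Option.casesOn (decode (α := List Bool) n) false
    (fun σ => isName t S σ && decide (encode σ = n))

theorem comp_domB (ht : Computable t) (hS : Computable₂ S) : Computable (domB t S) :=
  Computable.option_casesOn (o := fun n : ℕ => decode (α := List Bool) n)
    (f := fun _ => false)
    (g := fun (n : ℕ) (σ : List Bool) => isName t S σ && decide (encode σ = n))
    Computable.decode (Computable.const false)
    (comp_and ((comp_isName ht hS).comp Computable.snd)
      (comp_beq (Computable.encode.comp Computable.snd) Computable.fst)).to₂

/-- The order on codes of names. -/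
def relB (t : List Bool → Bool) (S : ℕ → ℕ → Bool) (p : ℕ × ℕ) : Bool :=
  Option.casesOn (decode (α := List Bool) p.1) false (fun σ =>
    Option.casesOn (decode (α := List Bool) p.2) false (fun τ =>
      decide (cmp (pathN t S σ) (pathN t S τ) (σ.length + τ.length) = some true)))

theorem comp_relB (ht : Computable t) (hS : Computable₂ S) : Computable (relB t S) := by
  refine Computable.option_casesOn (o := fun p : ℕ × ℕ => decode (α := List Bool) p.1)
    (f := fun _ => false)
    (g := fun (p : ℕ × ℕ) (σ : List Bool) =>
      (Option.casesOn (decode (α := List Bool) p.2) false (fun τ =>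
      decide (cmp (pathN t S σ) (pathN t S τ) (σ.length + τ.length) = some true)) : Bool))
    (Computable.decode.comp Computable.fst) (Computable.const false) ?_
  refine (Computable.option_casesOn
    (o := fun x : (ℕ × ℕ) × List Bool => decode (α := List Bool) x.1.2)
    (f := fun _ => false)
    (g := fun (x : (ℕ × ℕ) × List Bool) (τ : List Bool) =>
      decide (cmp (pathN t S x.2) (pathN t S τ) (x.2.length + τ.length) = some true))
    (Computable.decode.comp (Computable.snd.comp Computable.fst)) (Computable.const false)
    ?_).to₂
  have h1 : Computable fun y : ((ℕ × ℕ) × List Bool) × List Bool => (y.1.2, y.2) :=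
    Computable.pair (Computable.snd.comp Computable.fst) Computable.snd
  have h2 : Computable₂ fun (q : List Bool × List Bool) (n : ℕ) =>
      cmp (pathN t S q.1) (pathN t S q.2) n :=
    comp_cmp (f := fun q : List Bool × List Bool => pathN t S q.1)
      (g := fun q : List Bool × List Bool => pathN t S q.2)
      ((comp_pathN ht hS).comp (Computable.fst.comp Computable.fst) Computable.snd).to₂
      ((comp_pathN ht hS).comp (Computable.snd.comp Computable.fst) Computable.snd).to₂
  have h3 : Computable fun y : ((ℕ × ℕ) × List Bool) × List Bool =>
      y.1.2.length + y.2.length :=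
    Primrec.nat_add.to_comp.comp
      (Computable.list_length.comp (Computable.snd.comp Computable.fst))
      (Computable.list_length.comp Computable.snd)
  exact (comp_beq (h2.comp h1 h3) (Computable.const (some true))).to₂

/-- Main theorem in terms of the characteristic function: if `S` is uniformly computable and
lists all limit paths, then the order of the isolated paths has a computable presentation. -/
theorem presentation (htree : IsTree t) (ht : Computable t) (hS : Computable₂ S)
    (hlist : ∀ f, IsPath t f → (∀ a, ∃ n, a ≤ n ∧ both t (pre f n) = true) → ∃ k, S k = f) :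
    ∃ D : Set ℕ, ∃ R : ℕ → ℕ → Prop,
      ComputablePred (fun n : ℕ => n ∈ D) ∧
      ComputablePred (fun p : ℕ × ℕ => R p.1 p.2) ∧
      ∃ e : {n : ℕ // n ∈ D} ≃
          {f : ℕ → Bool // IsPath t f ∧
            ∃ m : ℕ, ∀ g : ℕ → Bool, IsPath t g → (∀ i < m, g i = f i) → g = f},
        ∀ a b : {n : ℕ // n ∈ D},
          (R a.1 b.1 ↔ ∃ k : ℕ, (∀ i < k, (e a).1 i = (e b).1 i) ∧
            (e a).1 k = false ∧ (e b).1 k = true) := by
  have hdec : ∀ n : ℕ, domB t S n = true →
      ∃ σ : List Bool, decode (α := List Bool) n = some σ ∧ isName t S σ = true ∧
        encode σ = n := by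
    intro n hn
    unfold domB at hn
    cases h : decode (α := List Bool) n with
    | none => rw [h] at hn; cases hn
    | some σ =>
      rw [h] at hn
      simp only [Bool.and_eq_true, decide_eq_true_eq] at hn
      exact ⟨σ, rfl, hn.1, hn.2⟩
  let D : Set ℕ := {n | domB t S n = true}
  let nm : {n : ℕ // n ∈ D} → List Bool := fun n => Classical.choose (hdec n.1 n.2)
  have hnm : ∀ n : {n : ℕ // n ∈ D}, decode (α := List Bool) n.1 = some (nm n) ∧
      isName t S (nm n) = true ∧ encode (nm n) = n.1 := fun n =>
    Classical.choose_spec (hdec n.1 n.2)
  have htn : ∀ n : {n : ℕ // n ∈ D}, t (nm n) = true := by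
    intro n
    have := (hnm n).2.1
    simp only [isName, Bool.and_eq_true] at this
    exact this.1
  let F : {n : ℕ // n ∈ D} → {f : ℕ → Bool // IsPath t f ∧
      ∃ m : ℕ, ∀ g : ℕ → Bool, IsPath t g → (∀ i < m, g i = f i) → g = f} := fun n =>
    ⟨pathN t S (nm n), pathN_isPath S htree (htn n), by
      obtain ⟨a, ha⟩ := pathN_quiet S htree hlist (hnm n).2.1
      exact ⟨a, fun g hg hag => eq_of_quiet (pathN_isPath S htree (htn n)) hg ha hag⟩⟩
  have hbij : Function.Bijective F := by
    constructor
    · intro x y hxy
      have h1 : pathN t S (nm x) = pathN t S (nm y) := congrArg Subtype.val hxy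
      have h2 : nm x = nm y := name_inj S (hnm x).2.1 (hnm y).2.1 (fun i _ => by rw [h1])
      apply Subtype.ext
      rw [← (hnm x).2.2, ← (hnm y).2.2, h2]
    · rintro ⟨f, hf, m, hm⟩
      obtain ⟨σ, hσ, hpσ⟩ := exists_name S hf (quiet_of_isolated htree hm)
      have hmem : domB t S (encode σ) = true := by
        unfold domB
        rw [encodek]
        simp [hσ]
      refine ⟨⟨encode σ, hmem⟩, ?_⟩
      apply Subtype.ext
      show pathN t S (nm ⟨encode σ, hmem⟩) = f
      have h1 : nm ⟨encode σ, hmem⟩ = σ := by
        have := (hnm ⟨encode σ, hmem⟩).1
        rw [encodek] at this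
        exact (Option.some.inj this).symm
      rw [h1, hpσ]
  refine ⟨D, fun a b => relB t S (a, b) = true, ?_, ?_, Equiv.ofBijective F hbij, ?_⟩
  · exact ComputablePred.computable_iff.2 ⟨domB t S, comp_domB ht hS, rfl⟩
  · exact ComputablePred.computable_iff.2 ⟨relB t S, comp_relB ht hS, rfl⟩
  · intro a b
    show relB t S (a.1, b.1) = true ↔ ∃ k : ℕ,
      (∀ i < k, pathN t S (nm a) i = pathN t S (nm b) i) ∧
      pathN t S (nm a) k = false ∧ pathN t S (nm b) k = true
    have hrel : relB t S (a.1, b.1) = decide (cmp (pathN t S (nm a)) (pathN t S (nm b))
        ((nm a).length + (nm b).length) = some true) := by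
      unfold relB
      simp only
      rw [(hnm a).1, (hnm b).1]
    rw [hrel, decide_eq_true_eq, cmp_true]
    constructor
    · rintro ⟨k, _, h⟩
      exact ⟨k, h⟩
    · rintro ⟨k, h1, h2, h3⟩
      refine ⟨k, ?_, h1, h2, h3⟩
      by_contra hk
      have h4 : nm a = nm b := name_inj S (hnm a).2.1 (hnm b).2.1
        (fun i hi => h1 i (by omega))
      rw [h4, h3] at h2
      cases h2

end Pool.Agent.Lib.MP_0f5a21_lc
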